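import Pool.Agent.Helper74.CW.BIG
import Pool.Agent.Helper82.CW.SYM
import Pool.Agent.Helper10.CW.CONC

/-! The case of a kernel of dimension three for a conic (module CONN of MP_526055_co). -/

set_option autoImplicit false

namespace Pool.Agent.Helper74.CW

open Module Polynomial

variable {F K : Type*} [Field F] [Field K] [Algebra F K]

/-- a small subspace is not stable under multiplication by `a` -/
theorem CONN_stable [FiniteDimensional F K] (hB : Big F K) {a : K}
    (ha : a ∉ Set.range (algebraMap F K)) (V : Submodule F K) (hV : ∀ v ∈ V, a * v ∈ V)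
    (hd : finrank F V ≤ 6) : V = ⊥ := by
  by_contra hne
  obtain ⟨v, hv, hv0⟩ := Submodule.exists_mem_ne_zero_of_ne_bot hne
  let m : V →ₗ[F] V := (LinearMap.mulLeft F a).restrict hV
  have h1 := LinearMap.aeval_self_charpoly m
  have hm : ∀ x : V, ((m x : V) : K) = a * x := fun x => rfl
  have h2 : ∀ (p : F[X]) (x : V), (((aeval m p) x : V) : K) = aeval a p * x := by
    intro p
    induction p using Polynomial.induction_on' with
    | add p q hp hq =>
      intro x
      rw [map_add, map_add, LinearMap.add_apply, Submodule.coe_add, hp, hq, add_mul]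
    | monomial n c =>
      intro x
      rw [aeval_monomial, aeval_monomial]
      have h3 : ∀ (n : ℕ) (x : V), (((m ^ n) x : V) : K) = a ^ n * x := by
        intro n
        induction n with
        | zero =>
          intro x
          simp
        | succ n ih =>
          intro x
          rw [pow_succ, Module.End.mul_apply, ih, hm]
          ring
      rw [Module.End.mul_apply, Module.algebraMap_end_apply, Submodule.coe_smul, h3,
        Algebra.smul_def]
      ring
  have h3 : aeval a m.charpoly = 0 := by
    have h4 := h2 m.charpoly ⟨v, hv⟩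
    rw [h1] at h4
    have h5 : aeval a m.charpoly * v = 0 := by
      rw [← h4]
      simp
    exact (mul_eq_zero.1 h5).resolve_right hv0
  have h4 : m.charpoly.natDegree = finrank F V := LinearMap.charpoly_natDegree m
  exact ha (hB a _ (LinearMap.charpoly_monic m).ne_zero (by omega) h3)

theorem CONN_finrank_sc {w : K} (hw : w ≠ 0) (S : Submodule F K) :
    finrank F ↥(sc w S) = finrank F S := by
  have h3 : Function.Injective (LinearMap.mulLeft F w) := by
    intro x y hxy
    simp only [LinearMap.mulLeft_apply] at hxy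
    exact mul_left_cancel₀ hw hxy
  exact (LinearEquiv.finrank_eq (Submodule.equivMapOfInjective _ h3 S)).symm

theorem CONN_mem_sc {w x : K} {S : Submodule F K} : x ∈ sc w S ↔ ∃ y ∈ S, w * y = x := by
  simp [sc, Submodule.mem_map]

/-- there is `s' ≠ 0` with `s', a s' ∈ S` -/
theorem CONN_pair [FiniteDimensional F K] (hB : Big F K) {a : K}
    (ha : a ∉ Set.range (algebraMap F K)) {s : Fin 3 → K} (hs : LinearIndependent F s)
    (h3 : finrank F (NN F ![1, a, a ^ 2] s) = 3) :
    ∃ w : K, w ≠ 0 ∧ w ∈ Submodule.span F (Set.range s) ∧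
      a * w ∈ Submodule.span F (Set.range s) := by
  have hrel : ∀ X ∈ NN F ![1, a, a ^ 2] s, (∑ j, X 0 j • s j) + a * (∑ j, X 1 j • s j) +
      a ^ 2 * (∑ j, X 2 j • s j) = 0 := by
    intro X hX
    have h1 : ∑ i, ∑ j, X i j • (![1, a, a ^ 2] i * s j) = 0 := hX
    simp only [Fin.sum_univ_three, Algebra.smul_def, Matrix.cons_val] at h1 ⊢
    linear_combination h1
  have hmem : ∀ c : Fin 3 → F, ∑ j, c j • s j ∈ Submodule.span F (Set.range s) := by
    intro c
    exact Submodule.sum_mem _ fun j _ => Submodule.smul_mem _ _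
      (Submodule.subset_span ⟨j, rfl⟩)
  let φ : NN F ![1, a, a ^ 2] s →ₗ[F] (Fin 3 → F) :=
    { toFun := fun X => (X : Matrix (Fin 3) (Fin 3) F) 2
      map_add' := fun _ _ => rfl
      map_smul' := fun _ _ => rfl }
  by_cases hinj : Function.Injective φ
  · exfalso
    have hsurj : Function.Surjective φ :=
      (LinearMap.injective_iff_surjective_of_finrank_eq_finrank (by rw [h3]; simp)).1 hinj
    set S := Submodule.span F (Set.range s) with hS
    have hV : ∀ v ∈ S ⊔ sc a S, a * v ∈ S ⊔ sc a S := by
      have hsq : ∀ z ∈ S, a ^ 2 * z ∈ S ⊔ sc a S := by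
        intro z hz
        rw [hS] at hz
        induction hz using Submodule.span_induction with
        | mem x hx =>
          obtain ⟨j, rfl⟩ := hx
          obtain ⟨⟨X, hX⟩, hXj⟩ := hsurj (Pi.single j 1)
          have h2 : X 2 = Pi.single j 1 := hXj
          have h4 := hrel X hX
          rw [h2] at h4
          have h5 : ∑ k, (Pi.single j 1 : Fin 3 → F) k • s k = s j := by
            rw [Finset.sum_eq_single j]
            · simp
            · intro b _ hb
              simp [hb]
            · intro h
              exact absurd (Finset.mem_univ _) h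
          rw [h5] at h4
          have h6 : a ^ 2 * s j = -(∑ k, X 0 k • s k) + a * (-(∑ k, X 1 k • s k)) := by
            linear_combination h4
          rw [h6]
          refine Submodule.add_mem_sup (S.neg_mem (hmem _)) ?_
          exact CONN_mem_sc.2 ⟨_, S.neg_mem (hmem _), rfl⟩
        | zero => rw [mul_zero]; exact Submodule.zero_mem _
        | add x y _ _ hx hy => rw [mul_add]; exact Submodule.add_mem _ hx hy
        | smul c x _ hx => rw [mul_smul_comm]; exact Submodule.smul_mem _ _ hx
      intro v hv
      obtain ⟨x, hx, y, hy, rfl⟩ := Submodule.mem_sup.1 hv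
      rw [mul_add]
      refine Submodule.add_mem _ ?_ ?_
      · exact Submodule.mem_sup_right (CONN_mem_sc.2 ⟨x, hx, rfl⟩)
      · obtain ⟨z, hz, rfl⟩ := CONN_mem_sc.1 hy
        have h7 : a * (a * z) = a ^ 2 * z := by ring
        rw [h7]
        exact hsq z hz
    have hfin : finrank F ↥(S ⊔ sc a S) ≤ 6 := by
      have h8 := Submodule.finrank_add_le_finrank_add_finrank S (sc a S)
      have ha0 : a ≠ 0 := by
        rintro rfl
        exact ha ⟨0, map_zero _⟩
      rw [CONN_finrank_sc ha0] at h8
      have h9 : finrank F S = 3 := by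
        rw [hS, finrank_span_eq_card hs]
        simp
      omega
    have hbot := CONN_stable hB ha _ hV hfin
    have h10 : s 0 ∈ S ⊔ sc a S := Submodule.mem_sup_left (Submodule.subset_span ⟨0, rfl⟩)
    rw [hbot, Submodule.mem_bot] at h10
    exact hs.ne_zero 0 h10
  · have hker : LinearMap.ker φ ≠ ⊥ := fun h => hinj (LinearMap.ker_eq_bot.1 h)
    obtain ⟨⟨X, hX⟩, hXk, hX0⟩ := Submodule.exists_mem_ne_zero_of_ne_bot hker
    have h2 : X 2 = 0 := hXk
    have h4 := hrel X hX
    rw [h2] at h4
    simp only [Pi.zero_apply, zero_smul, Finset.sum_const_zero, mul_zero, add_zero] at h4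
    refine ⟨∑ j, X 1 j • s j, ?_, hmem _, ?_⟩
    · intro h0
      rw [h0, mul_zero, add_zero] at h4
      have h5 := Fintype.linearIndependent_iff.1 hs _ h4
      have h6 := Fintype.linearIndependent_iff.1 hs _ h0
      apply hX0
      apply Subtype.ext
      show X = 0
      ext i j
      fin_cases i
      · exact h5 j
      · exact h6 j
      · exact congrFun h2 j
    · have h5 : a * (∑ j, X 1 j • s j) = -(∑ j, X 0 j • s j) := by linear_combination h4
      rw [h5]
      exact Submodule.neg_mem _ (hmem _)

/-- a third basis vector -/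
theorem CONN_third [FiniteDimensional F K] {a : K} (ha : a ∉ Set.range (algebraMap F K))
    {S : Submodule F K} (hS : finrank F S = 3) (h1 : (1 : K) ∈ S) (h2 : a ∈ S) :
    ∃ h : K, S = Submodule.span F {1, a, h} := by
  have h3 : ∃ h ∈ S, h ∉ Submodule.span F {1, a} := by
    by_contra hcon
    push Not at hcon
    have h4 : S ≤ Submodule.span F {1, a} := hcon
    have h5 := Submodule.finrank_mono h4
    have h6 : finrank F ↥(Submodule.span F ({1, a} : Set K)) ≤ 2 := by
      classical
      have h7 := finrank_span_finset_le_card (R := F) (M := K) ({1, a} : Finset K)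
      rw [Finset.coe_insert, Finset.coe_singleton] at h7
      exact h7.trans Finset.card_le_two
    omega
  obtain ⟨h, hh, hn⟩ := h3
  refine ⟨h, ?_⟩
  have hind : LinearIndependent F ![1, a, h] := by
    rw [Fintype.linearIndependent_iff]
    intro g hg
    rw [Fin.sum_univ_three] at hg
    simp only [Matrix.cons_val] at hg
    have g2 : g 2 = 0 := by
      by_contra hne
      apply hn
      rw [Submodule.mem_span_pair]
      refine ⟨-(g 0 / g 2), -(g 1 / g 2), ?_⟩
      have h8 : h = (g 2)⁻¹ • (g 2 • h) := by rw [smul_smul, inv_mul_cancel₀ hne, one_smul]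
      have h9 : g 2 • h = -(g 0 • (1 : K) + g 1 • a) := by linear_combination hg
      rw [h8, h9, smul_neg, smul_add, smul_smul, smul_smul, neg_add, ← neg_smul, ← neg_smul,
        div_eq_inv_mul, div_eq_inv_mul]
    rw [g2, zero_smul, add_zero] at hg
    have g1 : g 1 = 0 := by
      by_contra hne
      apply ha
      refine ⟨-(g 0 / g 1), ?_⟩
      rw [Algebra.smul_def, Algebra.smul_def, mul_one] at hg
      have hne' : algebraMap F K (g 1) ≠ 0 := by simpa using hne
      rw [map_neg, map_div₀]
      field_simp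
      linear_combination -hg
    rw [g1, zero_smul, add_zero] at hg
    have g0 : g 0 = 0 := by simpa using hg
    intro i
    fin_cases i
    · exact g0
    · exact g1
    · exact g2
  have hr : Set.range ![1, a, h] = {1, a, h} := by
    ext x
    simp only [Set.mem_range, Fin.exists_fin_succ, Set.mem_insert_iff, Set.mem_singleton_iff]
    simp [eq_comm]
  have hf := finrank_span_eq_card hind
  rw [hr] at hf
  symm
  apply Submodule.eq_of_le_of_finrank_eq
  · rw [Submodule.span_le]
    rintro x (rfl | rfl | rfl)
    · exact h1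
    · exact h2
    · exact hh
  · rw [hf, hS]
    simp

/-- the seven products -/
def CONNe (a h : K) : Fin 7 → K := ![1, a, a ^ 2, a ^ 3, h, a * h, a ^ 2 * h]

theorem CONN_span (a h : K) : Submodule.span F {1, a, h} * Submodule.span F {1, a, a ^ 2} =
    Submodule.span F (Set.range (CONNe a h)) := by
  rw [Submodule.span_mul_span]
  have hr : ∀ i, CONNe a h i ∈ Submodule.span F (Set.range (CONNe a h)) :=
    fun i => Submodule.subset_span ⟨i, rfl⟩
  apply le_antisymm
  · rw [Submodule.span_le]
    rintro z hz
    obtain ⟨x, hx, y, hy, rfl⟩ := Set.mem_mul.1 hz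
    simp only [Set.mem_insert_iff, Set.mem_singleton_iff] at hx hy
    rcases hx with rfl | rfl | rfl <;> rcases hy with rfl | rfl | rfl
    · simpa [CONNe] using hr 0
    · simpa [CONNe] using hr 1
    · simpa [CONNe] using hr 2
    · simpa [CONNe] using hr 1
    · have := hr 2
      simpa [CONNe, pow_two] using this
    · have := hr 3
      have e : CONNe x h 3 = x * x ^ 2 := by
        show x ^ 3 = x * x ^ 2
        ring
      rw [e] at this
      exact this
    · simpa [CONNe] using hr 4
    · have := hr 5
      have e : CONNe y x 5 = x * y := by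
        show y * x = x * y
        ring
      rw [e] at this
      exact this
    · have := hr 6
      have e : CONNe a x 6 = x * a ^ 2 := by
        show a ^ 2 * x = x * a ^ 2
        ring
      rw [e] at this
      exact this
  · rw [Submodule.span_le]
    rintro z ⟨i, rfl⟩
    apply Submodule.subset_span
    rw [Set.mem_mul]
    fin_cases i
    · exact ⟨1, by simp, 1, by simp, by simp [CONNe]⟩
    · exact ⟨1, by simp, a, by simp, by simp [CONNe]⟩
    · exact ⟨1, by simp, a ^ 2, by simp, by simp [CONNe]⟩
    · exact ⟨a, by simp, a ^ 2, by simp, by simp [CONNe]; ring⟩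
    · exact ⟨h, by simp, 1, by simp, by simp [CONNe]⟩
    · exact ⟨h, by simp, a, by simp, by simp [CONNe]; ring⟩
    · exact ⟨h, by simp, a ^ 2, by simp, by simp [CONNe]; ring⟩

/-- dividing by the greatest common divisor -/
theorem CONN_gcd (f1 g1 : F[X]) (hg : g1 ≠ 0) : ∃ d f g : F[X], f1 = d * f ∧ g1 = d * g ∧
    IsCoprime f g := by
  classical
  obtain ⟨f, hf⟩ := EuclideanDomain.gcd_dvd_left f1 g1
  obtain ⟨g, hg'⟩ := EuclideanDomain.gcd_dvd_right f1 g1
  have h1 := EuclideanDomain.gcd_eq_gcd_ab f1 g1
  set d := EuclideanDomain.gcd f1 g1 with hd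
  have hd0 : d ≠ 0 := by
    intro h0
    rw [h0, zero_mul] at hg'
    exact hg hg'
  refine ⟨d, f, g, hf, hg', EuclideanDomain.gcdA f1 g1, EuclideanDomain.gcdB f1 g1, ?_⟩
  apply mul_left_cancel₀ hd0
  calc d * (EuclideanDomain.gcdA f1 g1 * f + EuclideanDomain.gcdB f1 g1 * g)
      = (d * f) * EuclideanDomain.gcdA f1 g1 + (d * g) * EuclideanDomain.gcdB f1 g1 := by ring
    _ = d * 1 := by rw [← hf, ← hg', mul_one]; exact h1.symm

theorem CONN_rel (hB : Big F K) {a : K} (ha : a ∉ Set.range (algebraMap F K)) {h : K}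
    (hd : finrank F ↥(Submodule.span F (Set.range (CONNe a h))) = 6) :
    ∃ f g : F[X], f.natDegree ≤ 3 ∧ g.natDegree ≤ 2 ∧ g ≠ 0 ∧ IsCoprime f g ∧
      (f.coeff 3 ≠ 0 ∨ g.coeff 2 ≠ 0) ∧ h = aeval a f / aeval a g := by
  set ψ : (Fin 7 → F) →ₗ[F] K := Fintype.linearCombination F (CONNe a h) with hψ
  have hψa : ∀ c : Fin 7 → F, ψ c = algebraMap F K (c 0) + algebraMap F K (c 1) * a +
      algebraMap F K (c 2) * a ^ 2 + algebraMap F K (c 3) * a ^ 3 + algebraMap F K (c 4) * h +
      algebraMap F K (c 5) * (a * h) + algebraMap F K (c 6) * (a ^ 2 * h) := by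
    intro c
    rw [hψ, Fintype.linearCombination_apply, Fin.sum_univ_seven]
    simp only [CONNe, Matrix.cons_val, Algebra.smul_def]
    ring
  have hrange : LinearMap.range ψ = Submodule.span F (Set.range (CONNe a h)) := by
    rw [hψ, Fintype.range_linearCombination]
  have hker : finrank F ↥(LinearMap.ker ψ) = 1 := by
    have h1 := LinearMap.finrank_range_add_finrank_ker ψ
    rw [hrange, hd] at h1
    simp at h1
    omega
  obtain ⟨⟨c, hc⟩, hc0, hcall⟩ := finrank_eq_one_iff'.1 hker
  have hcψ : ψ c = 0 := hc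
  rw [hψa] at hcψ
  set f1 : F[X] := -(C (c 0) + C (c 1) * X + C (c 2) * X ^ 2 + C (c 3) * X ^ 3) with hf1
  set g1 : F[X] := C (c 4) + C (c 5) * X + C (c 6) * X ^ 2 with hg1
  have hfdeg : f1.natDegree ≤ 3 := by
    rw [hf1, natDegree_neg]
    compute_degree
  have hgdeg : g1.natDegree ≤ 2 := by
    rw [hg1]
    compute_degree
  have hfa : aeval a f1 = -(algebraMap F K (c 0) + algebraMap F K (c 1) * a +
      algebraMap F K (c 2) * a ^ 2 + algebraMap F K (c 3) * a ^ 3) := by
    rw [hf1]
    simp
  have hga : aeval a g1 = algebraMap F K (c 4) + algebraMap F K (c 5) * a +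
      algebraMap F K (c 6) * a ^ 2 := by
    rw [hg1]
    simp
  have hrel : h * aeval a g1 = aeval a f1 := by
    rw [hfa, hga]
    linear_combination hcψ
  have hg0 : g1 ≠ 0 := by
    intro h0
    rw [h0, map_zero, mul_zero] at hrel
    have hf0 := hB.poly ha (hfdeg.trans (by norm_num)) hrel.symm
    have k4 := congrArg (fun p => Polynomial.coeff p 0) h0
    have k5 := congrArg (fun p => Polynomial.coeff p 1) h0
    have k6 := congrArg (fun p => Polynomial.coeff p 2) h0
    have k0 := congrArg (fun p => Polynomial.coeff p 0) hf0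
    have k1 := congrArg (fun p => Polynomial.coeff p 1) hf0
    have k2 := congrArg (fun p => Polynomial.coeff p 2) hf0
    have k3 := congrArg (fun p => Polynomial.coeff p 3) hf0
    rw [hg1] at k4 k5 k6
    rw [hf1] at k0 k1 k2 k3
    simp [coeff_X, coeff_C] at k0 k1 k2 k3 k4 k5 k6
    apply hc0
    apply Subtype.ext
    show c = 0
    funext i
    fin_cases i
    · exact k0
    · exact k1
    · exact k2
    · exact k3
    · exact k4
    · exact k5
    · exact k6
  obtain ⟨d, f, g, hdf, hdg, hco⟩ := CONN_gcd f1 g1 hg0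
  have hd0 : d ≠ 0 := by
    rintro rfl
    rw [zero_mul] at hdg
    exact hg0 hdg
  have hgne : g ≠ 0 := by
    rintro rfl
    rw [mul_zero] at hdg
    exact hg0 hdg
  have hfd : f.natDegree ≤ 3 := by
    by_cases hf0 : f = 0
    · rw [hf0]
      simp
    · have h2 : f1.natDegree = d.natDegree + f.natDegree := by
        rw [hdf, natDegree_mul hd0 hf0]
      omega
  have hgd : g.natDegree ≤ 2 := by
    have h2 : g1.natDegree = d.natDegree + g.natDegree := by
      rw [hdg, natDegree_mul hd0 hgne]
    omega
  have hga0 : aeval a g ≠ 0 := fun h0 => hgne (hB.poly ha (hgd.trans (by norm_num)) h0)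
  have hda0 : aeval a d ≠ 0 := by
    intro h0
    refine hd0 (hB.poly ha ?_ h0)
    have h2 : g1.natDegree = d.natDegree + g.natDegree := by
      rw [hdg, natDegree_mul hd0 hgne]
    omega
  have hrel2 : h * aeval a g = aeval a f := by
    rw [hdf, hdg, map_mul, map_mul] at hrel
    apply mul_left_cancel₀ hda0
    linear_combination hrel
  refine ⟨f, g, hfd, hgd, hgne, hco, ?_, by rw [← hrel2]; field_simp⟩
  by_contra hcon
  push Not at hcon
  obtain ⟨hf3, hg2⟩ := hcon
  have hfe : aeval a f = algebraMap F K (f.coeff 0) + algebraMap F K (f.coeff 1) * a +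
      algebraMap F K (f.coeff 2) * a ^ 2 := by
    rw [aeval_eq_sum_range' (Nat.lt_succ_of_le hfd)]
    simp only [Finset.sum_range_succ, Finset.sum_range_zero, Algebra.smul_def, hf3, map_zero]
    ring
  have hge : aeval a g = algebraMap F K (g.coeff 0) + algebraMap F K (g.coeff 1) * a := by
    rw [aeval_eq_sum_range' (Nat.lt_succ_of_le hgd)]
    simp only [Finset.sum_range_succ, Finset.sum_range_zero, Algebra.smul_def, hg2, map_zero]
    ring
  rw [hfe, hge] at hrel2
  have v1 : (![-f.coeff 0, -f.coeff 1, -f.coeff 2, 0, g.coeff 0, g.coeff 1, 0] : Fin 7 → F) ∈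
      LinearMap.ker ψ := by
    rw [LinearMap.mem_ker, hψa]
    simp only [Matrix.cons_val, map_neg, map_zero]
    linear_combination hrel2
  have v2 : (![0, -f.coeff 0, -f.coeff 1, -f.coeff 2, 0, g.coeff 0, g.coeff 1] : Fin 7 → F) ∈
      LinearMap.ker ψ := by
    rw [LinearMap.mem_ker, hψa]
    simp only [Matrix.cons_val, map_neg, map_zero]
    linear_combination a * hrel2
  obtain ⟨x, hx⟩ := hcall ⟨_, v1⟩
  obtain ⟨y, hy⟩ := hcall ⟨_, v2⟩
  have hx' : x • c = _ := congrArg Subtype.val hx
  have hy' : y • c = _ := congrArg Subtype.val hy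
  have hx4 := congrFun hx' 4
  have hx5 := congrFun hx' 5
  have hx6 := congrFun hx' 6
  have hy4 := congrFun hy' 4
  have hy5 := congrFun hy' 5
  have hy6 := congrFun hy' 6
  simp only [Matrix.cons_val, Pi.smul_apply, smul_eq_mul] at hx4 hx5 hx6 hy4 hy5 hy6
  apply hgne
  have hg1' : g.coeff 1 = 0 := by
    by_contra hne
    have hy0 : y ≠ 0 := by
      rintro rfl
      apply hne
      rw [← hy6, zero_mul]
    have hx0 : x ≠ 0 := by
      rintro rfl
      apply hne
      rw [← hx5, zero_mul]
    have hc6 : c 6 = 0 := (mul_eq_zero.1 hx6).resolve_left hx0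
    apply hne
    rw [← hy6, hc6, mul_zero]
  have hg0' : g.coeff 0 = 0 := by
    by_contra hne
    have hy0 : y ≠ 0 := by
      rintro rfl
      apply hne
      rw [← hy5, zero_mul]
    have hx0 : x ≠ 0 := by
      rintro rfl
      apply hne
      rw [← hx4, zero_mul]
    have hc4 : c 4 = 0 := (mul_eq_zero.1 hy4).resolve_left hy0
    apply hne
    rw [← hx4, hc4, mul_zero]
  rw [Polynomial.as_sum_range' g 3 (by omega)]
  simp [Finset.sum_range_succ, hg0', hg1', hg2]

theorem conn_cases [Finite F] [FiniteDimensional F K] (hB : Big F K) {a : K}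
    (ha : a ∉ Set.range (algebraMap F K)) {s : Fin 3 → K} (hs : LinearIndependent F s)
    (hsim : ¬ Sim (Submodule.span F (Set.range s)) (Submodule.span F {1, a, a ^ 2}))
    (h3 : finrank F (NN F ![1, a, a ^ 2] s) = 3) :
    ∃ m ∈ ({2 * Nat.card F, 2 * Nat.card F + 1, 2 * Nat.card F + 2} : Finset ℕ),
      inn (Submodule.span F (Set.range s)) (Submodule.span F {1, a, a ^ 2}) 2 =
        (Nat.card F - 1) * m := by
  obtain ⟨w, hw, hwS, hawS⟩ := CONN_pair hB ha hs h3
  set S := Submodule.span F (Set.range s) with hS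
  set T : Submodule F K := Submodule.span F {1, a, a ^ 2} with hT
  have hSfin : finrank F S = 3 := by
    rw [hS, finrank_span_eq_card hs]
    simp
  have hw' : w⁻¹ ≠ 0 := inv_ne_zero hw
  obtain ⟨h, hh⟩ := CONN_third ha (S := sc w⁻¹ S)
    (by rw [CONN_finrank_sc hw', hSfin])
    (CONN_mem_sc.2 ⟨w, hwS, inv_mul_cancel₀ hw⟩)
    (CONN_mem_sc.2 ⟨a * w, hawS, by field_simp⟩)
  have hr : Set.range ![1, a, a ^ 2] = {1, a, a ^ 2} := by
    ext x
    simp only [Set.mem_range, Fin.exists_fin_succ, Set.mem_insert_iff, Set.mem_singleton_iff]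
    simp [eq_comm]
  have h9 := NN_finrank (F := F) ![1, a, a ^ 2] s
  rw [h3, hr, ← hS, ← hT] at h9
  have hprod : sc w⁻¹ S * T = sc w⁻¹ (S * T) := by
    have e : ∀ V : Submodule F K, sc w⁻¹ V = Submodule.span F {w⁻¹} * V := by
      intro V
      ext x
      rw [CONN_mem_sc, Submodule.mem_span_singleton_mul]
    rw [e, e, mul_assoc]
  have h6 : finrank F ↥(Submodule.span F (Set.range (CONNe a h))) = 6 := by
    rw [← CONN_span, ← hh, ← hT, hprod, CONN_finrank_sc hw']
    omega
  obtain ⟨f, g, hf, hg, hg0, hco, hinf, hfg⟩ := CONN_rel hB ha h6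
  obtain ⟨-, -, hcount⟩ := conn_count hB ha hf hg hg0 hco hinf
  rw [← hfg, ← hh, ← hT] at hcount
  have hinn : inn (sc w⁻¹ S) T 2 = inn S T 2 := by
    have h10 := inn_sc S T hw' (one_ne_zero (α := K)) 2
    rwa [sym_sc_one] at h10
  rw [hinn] at hcount
  have hcard : Nat.card {c : F // g.eval c ≠ 0} + Nat.card {c : F // g.eval c = 0} =
      Nat.card F := by
    classical
    have := Fintype.ofFinite F
    rw [Nat.card_eq_fintype_card, Nat.card_eq_fintype_card, Nat.card_eq_fintype_card]
    have h11 := Fintype.card_subtype_compl (fun c : F => g.eval c = 0)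
    have h12 := Fintype.card_subtype_le (fun c : F => g.eval c = 0)
    simp only [ne_eq]
    omega
  have hroots : Nat.card {c : F // g.eval c = 0} ≤ g.natDegree := by
    classical
    have := Fintype.ofFinite F
    rw [Nat.card_eq_fintype_card, Fintype.card_subtype]
    calc (Finset.univ.filter (fun c : F => g.eval c = 0)).card ≤ g.roots.toFinset.card := by
          apply Finset.card_le_card
          intro c hc
          rw [Finset.mem_filter] at hc
          rw [Multiset.mem_toFinset, mem_roots hg0]
          exact hc.2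
      _ ≤ Multiset.card g.roots := Multiset.toFinset_card_le _
      _ ≤ g.natDegree := g.card_roots'
  refine ⟨_, ?_, hcount⟩
  simp only [Finset.mem_insert, Finset.mem_singleton]
  by_cases hg2 : g.coeff 2 = 0
  · rw [if_pos hg2]
    have hd1 : g.natDegree ≤ 1 := by
      by_contra hcon
      have : g.natDegree = 2 := by omega
      have hl : g.leadingCoeff = 0 := by
        rw [leadingCoeff, this, hg2]
      exact hg0 (leadingCoeff_eq_zero.1 hl)
    omega
  · rw [if_neg hg2]
    omega

end Pool.Agent.Helper74.CW
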