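import Pool.Agent.Helper74.CW.BIG
import Pool.Agent.Helper96.CW.HOM

/-! A cubic with five points over the field with three elements (module EX5 of MP_526055_co). -/

set_option autoImplicit false

namespace Pool.Agent.Helper74.CW

open Module Polynomial

variable {F K : Type*} [Field F] [Field K] [Algebra F K]

/-- a form of degree one -/
theorem EX5_linear {L : MvPolynomial (Fin 3) F} (hL : L.IsHomogeneous 1) :
    L = ∑ i, MvPolynomial.C (L.coeff (Finsupp.single i 1)) * MvPolynomial.X i := by
  classical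
  ext d
  rw [MvPolynomial.coeff_sum]
  simp only [MvPolynomial.coeff_C_mul, MvPolynomial.coeff_X, mul_ite, mul_one, mul_zero]
  by_cases hd : d.degree = 1
  · have h1 : ∃ i, d = Finsupp.single i 1 := by
      have h2 : ∑ i : Fin 3, d i = 1 := by
        rw [← hd, Finsupp.degree_eq_sum]
      rw [Fin.sum_univ_three] at h2
      have h3 : d 0 = 1 ∧ d 1 = 0 ∧ d 2 = 0 ∨ d 0 = 0 ∧ d 1 = 1 ∧ d 2 = 0 ∨
          d 0 = 0 ∧ d 1 = 0 ∧ d 2 = 1 := by omega
      rcases h3 with ⟨a, b, c⟩ | ⟨a, b, c⟩ | ⟨a, b, c⟩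
      · exact ⟨0, by ext j; fin_cases j <;> simp [a, b, c]⟩
      · exact ⟨1, by ext j; fin_cases j <;> simp [a, b, c]⟩
      · exact ⟨2, by ext j; fin_cases j <;> simp [a, b, c]⟩
    obtain ⟨i, rfl⟩ := h1
    rw [Finset.sum_eq_single i]
    · simp
    · intro j _ hj
      rw [if_neg]
      intro h
      exact hj (Finsupp.single_left_injective one_ne_zero h)
    · intro h
      exact absurd (Finset.mem_univ _) h
  · rw [hL.coeff_eq_zero hd]
    symm
    apply Finset.sum_eq_zero
    intro i _
    rw [if_neg]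
    rintro rfl
    apply hd
    simp

theorem EX5_count : Nat.card {v : Fin 3 → ZMod 3 // v ≠ 0 ∧
    v 1 * (v 0 ^ 2 + v 2 ^ 2) - v 2 ^ 3 = 0} = 10 := by
  rw [Nat.card_eq_fintype_card]
  decide

theorem EX5_lines : ∀ l : Fin 3 → ZMod 3, l ≠ 0 → ∃ v : Fin 3 → ZMod 3,
    l 0 * v 0 + l 1 * v 1 + l 2 * v 2 = 0 ∧ v 1 * (v 0 ^ 2 + v 2 ^ 2) - v 2 ^ 3 ≠ 0 := by
  decide

theorem exists_five [Finite F] (hq : Nat.card F = 3) (hB : Big F K) {a : K}
    (ha : a ∉ Set.range (algebraMap F K)) : ∃ C : MvPolynomial (Fin 3) F, Cub K C ∧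
      zeros C = (Nat.card F - 1) * 5 := by
  have : Fintype F := Fintype.ofFinite F
  have hp : Nat.Prime 3 := by norm_num
  let e : ZMod 3 ≃+* F := ZMod.ringEquivOfPrime F hp (by rw [← Nat.card_eq_fintype_card, hq])
  set P : MvPolynomial (Fin 3) F := MvPolynomial.X 1 * (MvPolynomial.X 0 ^ 2 +
    MvPolynomial.X 2 ^ 2) - MvPolynomial.X 2 ^ 3 with hP
  have heval : ∀ v : Fin 3 → F, MvPolynomial.eval v P = v 1 * (v 0 ^ 2 + v 2 ^ 2) - v 2 ^ 3 := by
    intro v
    rw [hP]
    simp
  have hhom : P.IsHomogeneous 3 := by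
    rw [hP]
    refine MvPolynomial.IsHomogeneous.sub ?_ (MvPolynomial.isHomogeneous_X_pow _ _)
    exact (MvPolynomial.isHomogeneous_X _ _).mul
      ((MvPolynomial.isHomogeneous_X_pow _ _).add (MvPolynomial.isHomogeneous_X_pow _ _))
  refine ⟨P, ⟨hhom, ?_, ?_⟩, ?_⟩
  · by_contra hirr
    obtain ⟨L, Q, hL0, hL, hLQ⟩ := linear_factor hhom hirr
    have hlin := EX5_linear hL
    set l : Fin 3 → F := fun i => L.coeff (Finsupp.single i 1) with hl
    have hl0 : (fun i => e.symm (l i)) ≠ 0 := by
      intro h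
      apply hL0
      rw [hlin]
      apply Finset.sum_eq_zero
      intro i _
      have h1 := congrFun h i
      simp only [Pi.zero_apply, EmbeddingLike.map_eq_zero_iff] at h1
      show MvPolynomial.C (l i) * MvPolynomial.X i = 0
      rw [h1]
      simp
    obtain ⟨v, hv1, hv2⟩ := EX5_lines _ hl0
    apply hv2
    have h2 : MvPolynomial.eval (fun i => e (v i)) P = 0 := by
      rw [hLQ, map_mul]
      have h3 : MvPolynomial.eval (fun i => e (v i)) L = 0 := by
        rw [hlin, map_sum, Fin.sum_univ_three]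
        simp only [map_mul, MvPolynomial.eval_C, MvPolynomial.eval_X]
        show l 0 * e (v 0) + l 1 * e (v 1) + l 2 * e (v 2) = 0
        have h4 := congrArg e hv1
        simpa using h4
      rw [h3, zero_mul]
    rw [heval] at h2
    have h5 := congrArg e.symm h2
    simpa using h5
  · refine ⟨![a * (a ^ 2 + 1), 1, a ^ 2 + 1], ?_, ?_⟩
    · rw [Fintype.linearIndependent_iff]
      intro g hg
      have h1 := Fintype.linearIndependent_iff.1 (hB.pow ha) ![g 1 + g 2, g 0, g 2, g 0, 0, 0, 0]
      have h2 := h1 (by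
        rw [Fin.sum_univ_seven]
        rw [Fin.sum_univ_three] at hg
        simp only [Algebra.smul_def] at hg ⊢
        have e0 : ((0 : Fin 7) : ℕ) = 0 := rfl
        have e1 : ((1 : Fin 7) : ℕ) = 1 := rfl
        have e2 : ((2 : Fin 7) : ℕ) = 2 := rfl
        have e3 : ((3 : Fin 7) : ℕ) = 3 := rfl
        have e4 : ((4 : Fin 7) : ℕ) = 4 := rfl
        have e5 : ((5 : Fin 7) : ℕ) = 5 := rfl
        have e6 : ((6 : Fin 7) : ℕ) = 6 := rfl
        rw [e0, e1, e2, e3, e4, e5, e6]
        simp only [Matrix.cons_val, map_add, map_zero] at hg ⊢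
        linear_combination hg)
      have k0 := h2 0
      have k1 := h2 1
      have k2 := h2 2
      simp only [Matrix.cons_val] at k0 k1 k2
      intro i
      fin_cases i
      · exact k1
      · show g 1 = 0
        linear_combination k0 - k2
      · exact k2
    · rw [hP]
      simp
      ring
  · show Nat.card {v : Fin 3 → F // v ≠ 0 ∧ MvPolynomial.eval v P = 0} = _
    rw [hq]
    show _ = 10
    rw [← EX5_count]
    refine Nat.card_congr ?_
    refine Equiv.subtypeEquiv (Equiv.arrowCongr (Equiv.refl _) e.symm.toEquiv) ?_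
    intro v
    rw [heval]
    have h1 : (Equiv.arrowCongr (Equiv.refl (Fin 3)) e.symm.toEquiv) v = fun i => e.symm (v i) := rfl
    rw [h1]
    constructor
    · rintro ⟨h2, h3⟩
      refine ⟨fun h => h2 ?_, ?_⟩
      · funext i
        have := congrFun h i
        simpa using this
      · have := congrArg e.symm h3
        simpa using this
    · rintro ⟨h2, h3⟩
      refine ⟨fun h => h2 ?_, ?_⟩
      · funext i
        have := congrFun h i
        simpa using this
      · have h4 := congrArg e h3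
        simp only [map_sub, map_mul, map_add, map_pow, RingEquiv.apply_symm_apply, map_zero] at h4
        exact h4

end Pool.Agent.Helper74.CW
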