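import Pool.Agent.Helper70.CW.REaux

/-! The value `0` is realized (module RE0 of MP_526055_co). -/

set_option autoImplicit false

namespace Pool.Agent.Helper74.CW

open Module Polynomial

variable {F K : Type*} [Field F] [Field K] [Algebra F K]

/-- there is a cubic without zeros over a finite field -/
theorem RE0_exists_cubic [Finite F] : ∃ c0 c1 c2 : F, ∀ x : F,
    x ^ 3 - c1 * x ^ 2 - c2 * x - c0 ≠ 0 := by
  by_contra hcon
  push Not at hcon
  -- every cubic is a linear factor times a quadratic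
  let φ : F × F × F → F × F × F := fun p => (p.2.1 - p.1, p.2.2 - p.1 * p.2.1, - (p.1 * p.2.2))
  have hsurj : Function.Surjective φ := by
    rintro ⟨d2, d1, d0⟩
    obtain ⟨x, hx⟩ := hcon (-d0) (-d2) (-d1)
    refine ⟨(x, d2 + x, d1 + x * (d2 + x)), ?_⟩
    simp only [φ, Prod.mk.injEq]
    refine ⟨by ring, by ring, ?_⟩
    linear_combination -hx
  have hinj : Function.Injective φ := Finite.injective_iff_surjective.2 hsurj
  have h1 : φ (0, -1, 0) = φ (1, 0, 0) := by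
    simp [φ]
  have h2 := hinj h1
  simp at h2

/-- `r(X)` and `g(X)` for the cyclic system -/
theorem RE0_circ {c0 c1 c2 : F} (hg : ∀ x : F, x ^ 3 - c1 * x ^ 2 - c2 * x - c0 ≠ 0) {u v w : F}
    (h1 : -c2 * u + -c1 * v + (1 - c0) * w = 0) (h2 : (1 - c0) * u + -c2 * v + -c1 * w = 0)
    (h3 : -c1 * u + (1 - c0) * v + -c2 * w = 0) : u = 0 ∧ v = 0 ∧ w = 0 := by
  set g : F[X] := X ^ 3 + C (-c1) * X ^ 2 + C (-c2) * X + C (-c0) with hgdef
  have hgdeg : g.natDegree = 3 := by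
    rw [hgdef]
    compute_degree!
  have hgm : g.Monic := by
    rw [hgdef]
    monicity!
  have hgirr : Irreducible g := by
    apply Polynomial.irreducible_of_degree_le_three_of_not_isRoot
    · rw [hgdeg]
      simp
    · intro x hx
      apply hg x
      have : g.eval x = 0 := hx
      rw [hgdef] at this
      simp at this
      linear_combination this
  -- `g` does not divide `X ^ 3 - 1`
  have hnd : ¬ g ∣ (X ^ 3 - 1 : F[X]) := by
    intro hdvd
    have hm1 : (X ^ 3 - 1 : F[X]).Monic := by monicity!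
    have hd1 : (X ^ 3 - 1 : F[X]).natDegree = 3 := by compute_degree!
    have heq := Polynomial.eq_of_monic_of_dvd_of_natDegree_le hgm hm1 hdvd (by rw [hd1, hgdeg])
    apply hg 1
    have h4 := congrArg (Polynomial.eval 1) heq
    rw [hgdef] at h4
    simp at h4
    linear_combination -h4
  have hco : IsCoprime (X ^ 3 - 1 : F[X]) g := (hgirr.coprime_iff_not_dvd.2 hnd).symm
  set h : F[X] := C u + C w * X + C v * X ^ 2 with hh
  have hmul : g * h = (X ^ 3 - 1) * (h + C (-c2 * v + -c1 * w) + C (-c1 * v) * X) := by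
    have e1 : C (-c2) * C u + C (-c1) * C v + (1 - C c0) * C w = (0 : F[X]) := by
      rw [← map_mul, ← map_mul, ← map_one C, ← map_sub, ← map_mul, ← map_add, ← map_add, h1, map_zero]
    have e2 : (1 - C c0) * C u + C (-c2) * C v + C (-c1) * C w = (0 : F[X]) := by
      rw [← map_mul, ← map_mul, ← map_one C, ← map_sub, ← map_mul, ← map_add, ← map_add, h2, map_zero]
    have e3 : C (-c1) * C u + (1 - C c0) * C v + C (-c2) * C w = (0 : F[X]) := by
      rw [← map_mul, ← map_mul, ← map_one C, ← map_sub, ← map_mul, ← map_add, ← map_add, h3, map_zero]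
    rw [hgdef, hh]
    simp only [map_add, map_mul, map_neg] at *
    linear_combination e2 + X * e1 + X ^ 2 * e3
  have hdvd : (X ^ 3 - 1 : F[X]) ∣ h := hco.dvd_of_dvd_mul_left ⟨_, hmul⟩
  have hh0 : h = 0 := by
    refine Polynomial.eq_zero_of_dvd_of_natDegree_lt hdvd ?_
    have hd1 : (X ^ 3 - 1 : F[X]).natDegree = 3 := by compute_degree!
    have hd2 : h.natDegree ≤ 2 := by
      rw [hh]
      compute_degree
    omega
  have c0' := congrArg (fun p => Polynomial.coeff p 0) hh0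
  have c1' := congrArg (fun p => Polynomial.coeff p 1) hh0
  have c2' := congrArg (fun p => Polynomial.coeff p 2) hh0
  rw [hh] at c0' c1' c2'
  simp [coeff_X, coeff_C] at c0' c1' c2'
  exact ⟨c0', c2', c1'⟩

/-- the kernel -/
theorem RE0_kernel (hB : Big F K) {a : K} (ha : a ∉ Set.range (algebraMap F K)) {c0 c1 c2 : F}
    (hg : ∀ x : F, x ^ 3 - c1 * x ^ 2 - c2 * x - c0 ≠ 0) {R : Matrix (Fin 3) (Fin 3) F}
    (hR : R ∈ NN F ![1, a, a ^ 2] ![a ^ 2 - a ^ 2 * (algebraMap F K c0 + algebraMap F K c1 * a +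
      algebraMap F K c2 * a ^ 2), a ^ 4 - a, (algebraMap F K c0 + algebraMap F K c1 * a +
      algebraMap F K c2 * a ^ 2) - a ^ 3]) :
    R 0 0 = R 2 2 ∧ R 1 0 = 0 ∧ R 2 0 = R 1 2 ∧ R 0 2 = 0 ∧ R 0 1 = c0 * R 1 2 ∧
      R 1 1 = R 2 2 + c1 * R 1 2 ∧ R 2 1 = c2 * R 1 2 := by
  have h := RE_mem hR
  have hc0 : c0 ≠ 0 := by
    intro h0
    apply hg 0
    rw [h0]
    ring
  have h7 := RE_seven hB ha ![c0 * R 0 2, - R 0 1 + c1 * R 0 2 + c0 * R 1 2,
    (1 - c0) * R 0 0 - R 1 1 + c2 * R 0 2 + c1 * R 1 2 + c0 * R 2 2,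
    -c1 * R 0 0 + (1 - c0) * R 1 0 - R 2 1 - R 0 2 + c2 * R 1 2 + c1 * R 2 2,
    -c2 * R 0 0 - c1 * R 1 0 + (1 - c0) * R 2 0 + R 0 1 - R 1 2 + c2 * R 2 2,
    -c2 * R 1 0 - c1 * R 2 0 + R 1 1 - R 2 2, -c2 * R 2 0 + R 2 1] (by
      simp only [Matrix.cons_val, map_add, map_mul, map_sub, map_neg, map_one] at h ⊢
      linear_combination h)
  have e0 := h7 0
  have e1 := h7 1
  have e2 := h7 2
  have e3 := h7 3
  have e4 := h7 4
  have e5 := h7 5
  have e6 := h7 6
  simp only [Matrix.cons_val] at e0 e1 e2 e3 e4 e5 e6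
  have f0 : R 0 2 = 0 := (mul_eq_zero.1 e0).resolve_left hc0
  rw [f0] at e1 e2 e3
  have f1 : R 0 1 = c0 * R 1 2 := by linear_combination -e1
  have hcirc := RE0_circ hg (u := R 0 0 - R 2 2) (v := R 1 0) (w := R 2 0 - R 1 2)
    (by rw [f1] at e4; linear_combination e4)
    (by linear_combination e5 + e2) (by linear_combination e6 + e3)
  obtain ⟨g1, g2, g3⟩ := hcirc
  refine ⟨sub_eq_zero.1 g1, g2, sub_eq_zero.1 g3, f0, f1, ?_, ?_⟩
  · rw [g2, sub_eq_zero.1 g3] at e5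
    linear_combination e5
  · rw [sub_eq_zero.1 g3] at e6
    linear_combination e6

theorem real_0 [Finite F] [FiniteDimensional F K] (hB : Big F K) {a : K}
    (ha : a ∉ Set.range (algebraMap F K)) : Real33 F K 0 := by
  obtain ⟨c0, c1, c2, hg⟩ := RE0_exists_cubic (F := F)
  set s : Fin 3 → K := ![a ^ 2 - a ^ 2 * (algebraMap F K c0 + algebraMap F K c1 * a +
      algebraMap F K c2 * a ^ 2), a ^ 4 - a, (algebraMap F K c0 + algebraMap F K c1 * a +
      algebraMap F K c2 * a ^ 2) - a ^ 3] with hs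
  have hker : ∀ R ∈ NN F ![1, a, a ^ 2] s, R 0 0 = R 2 2 ∧ R 1 0 = 0 ∧ R 2 0 = R 1 2 ∧
      R 0 2 = 0 ∧ R 0 1 = c0 * R 1 2 ∧ R 1 1 = R 2 2 + c1 * R 1 2 ∧ R 2 1 = c2 * R 1 2 :=
    fun R hR => RE0_kernel hB ha hg hR
  have hzero : ∀ R ∈ NN F ![1, a, a ^ 2] s, R 1 2 = 0 → R 2 2 = 0 → R = 0 := by
    intro R hR h12 h22
    obtain ⟨h1, h2, h3, h4, h5, h6, h7⟩ := hker R hR
    rw [h12] at h3 h5 h6 h7
    rw [h22] at h1 h6
    ext i j
    fin_cases i <;> fin_cases j <;> simp [h1, h2, h3, h4, h5, h6, h7, h12, h22]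
  have hs_ind : LinearIndependent F s := by
    refine RE_indep_right (t := ![1, a, a ^ 2]) 0 (fun R hR h0 => ?_)
    exact hzero R hR (h0 1 2 (by decide)) (h0 2 2 (by decide))
  have ht_ind : LinearIndependent F ![1, a, a ^ 2] := by
    refine RE_indep_left (s := s) 0 (fun R hR h0 => ?_)
    exact hzero R hR (h0 1 2 (by decide)) (h0 2 2 (by decide))
  refine RE_real ht_ind hs_ind ?_ (by positivity)
  have hemp : IsEmpty {X : Matrix (Fin 3) (Fin 3) F // X ∈ NN F ![1, a, a ^ 2] s ∧ X ≠ 0 ∧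
      X.det = 0} := by
    refine ⟨fun ⟨R, hR, hne, hdet⟩ => ?_⟩
    obtain ⟨h1, h2, h3, h4, h5, h6, h7⟩ := hker R hR
    rw [Matrix.det_fin_three, h1, h2, h3, h4, h5, h6, h7] at hdet
    have hd : R 2 2 ^ 3 + c1 * R 2 2 ^ 2 * R 1 2 - c2 * R 2 2 * R 1 2 ^ 2 + c0 * R 1 2 ^ 3 = 0 := by
      linear_combination hdet
    by_cases h12 : R 1 2 = 0
    · rw [h12] at hd
      have h22 : R 2 2 ^ 3 = 0 := by linear_combination hd
      exact hne (hzero R hR h12 (pow_eq_zero_iff (by norm_num) |>.1 h22))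
    · apply hg (-(R 2 2 / R 1 2))
      field_simp
      linear_combination -hd
  show Nat.card {X : Matrix (Fin 3) (Fin 3) F // X ∈ NN F ![1, a, a ^ 2] s ∧ X ≠ 0 ∧
      X.det = 0} = 0
  exact Nat.card_of_isEmpty

end Pool.Agent.Helper74.CW
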