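import Pool.Agent.Helper70.CW.REaux

/-! The values `1`, `2`, `3` are realized (module RE123 of MP_526055_co). -/

set_option autoImplicit false

namespace Pool.Agent.Helper74.CW

open Module Polynomial

variable {F K : Type*} [Field F] [Field K] [Algebra F K]

/-- counting the singular elements when they are the multiples of `m` matrices -/
theorem RE_count [Finite F] {N : Submodule F (Matrix (Fin 3) (Fin 3) F)} {m : ℕ}
    (M : Fin m → Matrix (Fin 3) (Fin 3) F) (hM : ∀ k, M k ∈ N ∧ M k ≠ 0 ∧ (M k).det = 0)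
    (hinj : ∀ (x : F) (k l : Fin m), x • M k = M l → k = l)
    (hsurj : ∀ X ∈ N, X ≠ 0 → X.det = 0 → ∃ (x : F) (k : Fin m), X = x • M k) :
    sing N = (Nat.card F - 1) * m := by
  let f : Fˣ × Fin m → {X : Matrix (Fin 3) (Fin 3) F // X ∈ N ∧ X ≠ 0 ∧ X.det = 0} :=
    fun p => ⟨(p.1 : F) • M p.2, N.smul_mem _ (hM p.2).1,
      smul_ne_zero p.1.ne_zero (hM p.2).2.1, by
        rw [Matrix.det_smul, (hM p.2).2.2, mul_zero]⟩
  have hf : Function.Bijective f := by
    constructor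
    · rintro ⟨x, k⟩ ⟨y, l⟩ h
      have h1 : (x : F) • M k = (y : F) • M l := congrArg Subtype.val h
      have h2 : ((y : F)⁻¹ * (x : F)) • M k = M l := by
        rw [mul_smul, h1, smul_smul, inv_mul_cancel₀ y.ne_zero, one_smul]
      have h3 : k = l := hinj _ k l h2
      subst h3
      have h4 : ((x : F) - (y : F)) • M k = 0 := by rw [sub_smul, h1, sub_self]
      have h5 : (x : F) = y := sub_eq_zero.1 ((smul_eq_zero.1 h4).resolve_right (hM k).2.1)
      rw [Units.ext h5]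
    · rintro ⟨X, hX, hne, hdet⟩
      obtain ⟨x, k, rfl⟩ := hsurj X hX hne hdet
      have hx : x ≠ 0 := by
        rintro rfl
        exact hne (zero_smul _ _)
      exact ⟨(Units.mk0 x hx, k), rfl⟩
  show Nat.card {X : Matrix (Fin 3) (Fin 3) F // X ∈ N ∧ X ≠ 0 ∧ X.det = 0} = _
  rw [← Nat.card_congr (Equiv.ofBijective f hf), Nat.card_prod, Nat.card_units, Nat.card_fin]

theorem RE_lt [Finite F] {m : ℕ} (hm : m ≤ 3) :
    (Nat.card F - 1) * m < Nat.card F ^ 2 + Nat.card F + 1 := by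
  have h1 : (Nat.card F - 1) * m ≤ (Nat.card F - 1) * 3 := Nat.mul_le_mul_left _ hm
  have h2 : 2 ≤ Nat.card F := Finite.one_lt_card
  obtain ⟨k, hk⟩ := Nat.exists_eq_add_of_le h2
  rw [hk] at h1 ⊢
  have h3 : (2 + k - 1) = k + 1 := by omega
  rw [h3] at h1 ⊢
  nlinarith

theorem RE1_kernel (hB : Big F K) {a : K} (ha : a ∉ Set.range (algebraMap F K))
    {R : Matrix (Fin 3) (Fin 3) F} (hR : R ∈ NN F ![1, a, a ^ 2] ![1, a ^ 2, a + a ^ 4]) :
    R 0 0 = 0 ∧ R 1 0 = - R 0 2 ∧ R 1 1 = 0 ∧ R 1 2 = 0 ∧ R 2 0 = - R 0 1 ∧ R 2 1 = - R 0 2 ∧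
      R 2 2 = 0 := by
  have h := RE_mem hR
  have h7 := RE_seven hB ha ![R 0 0, R 1 0 + R 0 2, R 2 0 + R 0 1 + R 1 2, R 1 1 + R 2 2,
    R 2 1 + R 0 2, R 1 2, R 2 2] (by
      simp only [Matrix.cons_val, map_add, map_mul, map_sub, map_neg, map_one] at h ⊢
      linear_combination h)
  have e0 := h7 0
  have e1 := h7 1
  have e2 := h7 2
  have e3 := h7 3
  have e4 := h7 4
  have e5 := h7 5
  have e6 := h7 6
  simp only [Matrix.cons_val] at e0 e1 e2 e3 e4 e5 e6
  refine ⟨e0, by linear_combination e1, by linear_combination e3 - e6, e5,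
    by linear_combination e2 - e5, by linear_combination e4, e6⟩

theorem real_1 [Finite F] [FiniteDimensional F K] (hB : Big F K) {a : K}
    (ha : a ∉ Set.range (algebraMap F K)) : Real33 F K (Nat.card F - 1) := by
  set s : Fin 3 → K := ![1, a ^ 2, a + a ^ 4] with hs
  have hzero : ∀ R ∈ NN F ![1, a, a ^ 2] s, R 0 1 = 0 → R 0 2 = 0 → R = 0 := by
    intro R hR h01 h02
    obtain ⟨h1, h2, h3, h4, h5, h6, h7⟩ := RE1_kernel hB ha hR
    rw [h02] at h2 h6
    rw [h01] at h5
    ext i j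
    fin_cases i <;> fin_cases j <;> simp [h1, h2, h3, h4, h5, h6, h7, h01, h02]
  have hs_ind : LinearIndependent F s := by
    refine RE_indep_right (t := ![1, a, a ^ 2]) 1 (fun R hR h0 => ?_)
    exact hzero R hR (h0 0 1 (by decide)) (h0 0 2 (by decide))
  have ht_ind : LinearIndependent F ![1, a, a ^ 2] := by
    refine RE_indep_left (s := s) 0 (fun R hR h0 => ?_)
    exact hzero R hR (h0 0 1 (by decide)) (h0 0 2 (by decide))
  have hcount : sing (NN F ![1, a, a ^ 2] s) = (Nat.card F - 1) * 1 := by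
    refine RE_count (fun _ => !![0, 1, 0; 0, 0, 0; -1, 0, 0]) (fun _ => ⟨?_, ?_, ?_⟩)
      (fun _ k l _ => Subsingleton.elim k l) (fun X hX _ hdet => ?_)
    · rw [RE_mem_iff]
      simp [hs]
    · intro h
      have := congrFun (congrFun h 0) 1
      simp at this
    · simp [Matrix.det_fin_three]
    · obtain ⟨h1, h2, h3, h4, h5, h6, h7⟩ := RE1_kernel hB ha hX
      rw [Matrix.det_fin_three, h1, h2, h3, h4, h5, h6, h7] at hdet
      have h02 : X 0 2 = 0 := by
        have : X 0 2 ^ 3 = 0 := by linear_combination hdet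
        exact pow_eq_zero_iff (by norm_num) |>.1 this
      rw [h02] at h2 h6
      refine ⟨X 0 1, 0, ?_⟩
      ext i j
      fin_cases i <;> fin_cases j <;> simp [h1, h2, h3, h4, h5, h6, h7, h02]
  rw [mul_one] at hcount
  refine RE_real ht_ind hs_ind hcount ?_
  have := RE_lt (F := F) (m := 1) (by norm_num)
  rwa [mul_one] at this

theorem RE2_kernel (hB : Big F K) {a : K} (ha : a ∉ Set.range (algebraMap F K))
    {R : Matrix (Fin 3) (Fin 3) F} (hR : R ∈ NN F ![a ^ 2 + a + 1, 1, a ^ 2]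
      ![(a ^ 2 + a + 1) ^ 2, (a ^ 2 + a + 1) * a ^ 2, a ^ 2]) :
    R 0 0 = 0 ∧ R 1 0 = 0 ∧ R 1 1 = - R 0 2 ∧ R 1 2 = 0 ∧ R 2 0 = - R 0 1 ∧ R 2 1 = 0 ∧
      R 2 2 = 0 := by
  have h := RE_mem hR
  have h7 := RE_seven hB ha ![R 0 0 + R 1 0, 3 * R 0 0 + 2 * R 1 0,
    6 * R 0 0 + 3 * R 1 0 + (R 0 1 + R 2 0) + (R 0 2 + R 1 1) + R 1 2,
    7 * R 0 0 + 2 * R 1 0 + 2 * (R 0 1 + R 2 0) + (R 0 2 + R 1 1),
    6 * R 0 0 + R 1 0 + 3 * (R 0 1 + R 2 0) + (R 0 2 + R 1 1) + R 2 1 + R 2 2,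
    3 * R 0 0 + 2 * (R 0 1 + R 2 0) + R 2 1,
    R 0 0 + (R 0 1 + R 2 0) + R 2 1] (by
      simp only [Matrix.cons_val, map_add, map_mul, map_sub, map_neg, map_one, map_ofNat] at h ⊢
      linear_combination h)
  have e0 := h7 0
  have e1 := h7 1
  have e2 := h7 2
  have e3 := h7 3
  have e4 := h7 4
  have e5 := h7 5
  have e6 := h7 6
  simp only [Matrix.cons_val] at e0 e1 e2 e3 e4 e5 e6
  have hA : R 0 0 = 0 := by linear_combination e1 - 2 * e0
  have hBB : R 1 0 = 0 := by linear_combination e0 - hA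
  have hC : R 0 1 + R 2 0 = 0 := by linear_combination e5 - e6 - 2 * hA
  have hG : R 2 1 = 0 := by linear_combination e6 - hA - hC
  have hD : R 0 2 + R 1 1 = 0 := by linear_combination e3 - 7 * hA - 2 * hBB - 2 * hC
  refine ⟨hA, hBB, by linear_combination hD,
    by linear_combination e2 - 6 * hA - 3 * hBB - hC - hD, by linear_combination hC, hG,
    by linear_combination e4 - 6 * hA - hBB - 3 * hC - hD - hG⟩

theorem real_2 [Finite F] [FiniteDimensional F K] (hB : Big F K) {a : K}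
    (ha : a ∉ Set.range (algebraMap F K)) : Real33 F K ((Nat.card F - 1) * 2) := by
  set t : Fin 3 → K := ![a ^ 2 + a + 1, 1, a ^ 2] with ht
  set s : Fin 3 → K := ![(a ^ 2 + a + 1) ^ 2, (a ^ 2 + a + 1) * a ^ 2, a ^ 2] with hs
  have hzero : ∀ R ∈ NN F t s, R 0 1 = 0 → R 0 2 = 0 → R = 0 := by
    intro R hR h01 h02
    obtain ⟨h1, h2, h3, h4, h5, h6, h7⟩ := RE2_kernel hB ha hR
    rw [h02] at h3
    rw [h01] at h5
    ext i j
    fin_cases i <;> fin_cases j <;> simp [h1, h2, h3, h4, h5, h6, h7, h01, h02]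
  have hs_ind : LinearIndependent F s := by
    refine RE_indep_right (t := t) 1 (fun R hR h0 => ?_)
    exact hzero R hR (h0 0 1 (by decide)) (h0 0 2 (by decide))
  have ht_ind : LinearIndependent F t := by
    refine RE_indep_left (s := s) 0 (fun R hR h0 => ?_)
    exact hzero R hR (h0 0 1 (by decide)) (h0 0 2 (by decide))
  have hcount : sing (NN F t s) = (Nat.card F - 1) * 2 := by
    refine RE_count ![!![0, 1, 0; 0, 0, 0; -1, 0, 0], !![0, 0, 1; 0, -1, 0; 0, 0, 0]]
      (fun k => ⟨?_, ?_, ?_⟩) (fun x k l h => ?_) (fun X hX _ hdet => ?_)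
    · rw [RE_mem_iff]
      fin_cases k <;> simp [hs, ht] <;> ring
    · intro h
      fin_cases k
      · have := congrFun (congrFun h 0) 1
        simp at this
      · have := congrFun (congrFun h 0) 2
        simp at this
    · fin_cases k <;> simp [Matrix.det_fin_three]
    · have h01 := congrFun (congrFun h 0) 1
      have h02 := congrFun (congrFun h 0) 2
      fin_cases k <;> fin_cases l <;> simp_all
    · obtain ⟨h1, h2, h3, h4, h5, h6, h7⟩ := RE2_kernel hB ha hX
      rw [Matrix.det_fin_three, h1, h2, h3, h4, h5, h6, h7] at hdet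
      have h02 : X 0 1 = 0 ∨ X 0 2 = 0 := by
        have : X 0 1 * X 0 2 ^ 2 = 0 := by linear_combination -hdet
        rcases mul_eq_zero.1 this with h | h
        · exact Or.inl h
        · exact Or.inr (pow_eq_zero_iff (by norm_num) |>.1 h)
      rcases h02 with h02 | h02
      · rw [h02] at h5
        refine ⟨X 0 2, 1, ?_⟩
        ext i j
        fin_cases i <;> fin_cases j <;> simp [h1, h2, h3, h4, h5, h6, h7, h02]
      · rw [h02] at h3
        refine ⟨X 0 1, 0, ?_⟩
        ext i j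
        fin_cases i <;> fin_cases j <;> simp [h1, h2, h3, h4, h5, h6, h7, h02]
  exact RE_real ht_ind hs_ind hcount (RE_lt (by norm_num))

theorem RE3_kernel (hB : Big F K) {a : K} (ha : a ∉ Set.range (algebraMap F K))
    {R : Matrix (Fin 3) (Fin 3) F} (hR : R ∈ NN F ![1, a ^ 2, a ^ 2 + a + 1]
      ![(a ^ 2 + a + 1) * a ^ 2, a ^ 2 + a + 1, a ^ 2]) :
    R 2 2 = - R 0 0 - R 1 1 ∧ R 0 1 = 0 ∧ R 0 2 = 0 ∧ R 1 0 = 0 ∧ R 1 2 = 0 ∧ R 2 0 = 0 ∧
      R 2 1 = 0 := by
  have h := RE_mem hR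
  have h7 := RE_seven hB ha ![R 0 1 + R 2 1, R 0 1 + 2 * R 2 1,
    (R 0 0 + R 1 1 + R 2 2) + R 0 1 + R 0 2 + R 2 0 + 3 * R 2 1,
    (R 0 0 + R 1 1 + R 2 2) + 2 * R 2 0 + 2 * R 2 1,
    (R 0 0 + R 1 1 + R 2 2) + R 1 0 + R 1 2 + 3 * R 2 0 + R 2 1,
    R 1 0 + 2 * R 2 0, R 1 0 + R 2 0] (by
      simp only [Matrix.cons_val, map_add, map_mul, map_sub, map_neg, map_one, map_ofNat] at h ⊢
      linear_combination h)
  have e0 := h7 0
  have e1 := h7 1
  have e2 := h7 2
  have e3 := h7 3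
  have e4 := h7 4
  have e5 := h7 5
  have e6 := h7 6
  simp only [Matrix.cons_val] at e0 e1 e2 e3 e4 e5 e6
  have hH : R 2 1 = 0 := by linear_combination e1 - e0
  have hA : R 0 1 = 0 := by linear_combination e0 - hH
  have hG : R 2 0 = 0 := by linear_combination e5 - e6
  have hC : R 1 0 = 0 := by linear_combination e6 - hG
  have hD : R 0 0 + R 1 1 + R 2 2 = 0 := by linear_combination e3 - 2 * hG - 2 * hH
  refine ⟨by linear_combination hD, hA, by linear_combination e2 - hD - hA - hG - 3 * hH, hC,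
    by linear_combination e4 - hD - hC - 3 * hG - hH, hG, hH⟩

theorem real_3 [Finite F] [FiniteDimensional F K] (hB : Big F K) {a : K}
    (ha : a ∉ Set.range (algebraMap F K)) : Real33 F K ((Nat.card F - 1) * 3) := by
  set t : Fin 3 → K := ![1, a ^ 2, a ^ 2 + a + 1] with ht
  set s : Fin 3 → K := ![(a ^ 2 + a + 1) * a ^ 2, a ^ 2 + a + 1, a ^ 2] with hs
  have hzero : ∀ R ∈ NN F t s, R 0 0 = 0 → R 1 1 = 0 → R = 0 := by
    intro R hR h00 h11
    obtain ⟨h1, h2, h3, h4, h5, h6, h7⟩ := RE3_kernel hB ha hR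
    rw [h00, h11] at h1
    ext i j
    fin_cases i <;> fin_cases j <;> simp [h1, h2, h3, h4, h5, h6, h7, h00, h11]
  have hs_ind : LinearIndependent F s := by
    refine RE_indep_right (t := t) 2 (fun R hR h0 => ?_)
    exact hzero R hR (h0 0 0 (by decide)) (h0 1 1 (by decide))
  have ht_ind : LinearIndependent F t := by
    refine RE_indep_left (s := s) 2 (fun R hR h0 => ?_)
    exact hzero R hR (h0 0 0 (by decide)) (h0 1 1 (by decide))
  have hcount : sing (NN F t s) = (Nat.card F - 1) * 3 := by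
    refine RE_count ![!![0, 0, 0; 0, 1, 0; 0, 0, -1], !![1, 0, 0; 0, 0, 0; 0, 0, -1],
      !![1, 0, 0; 0, -1, 0; 0, 0, 0]] (fun k => ⟨?_, ?_, ?_⟩) (fun x k l h => ?_)
      (fun X hX _ hdet => ?_)
    · rw [RE_mem_iff]
      fin_cases k <;> simp [hs, ht] <;> ring
    · intro h
      fin_cases k
      · have := congrFun (congrFun h 1) 1
        simp at this
      · have := congrFun (congrFun h 0) 0
        simp at this
      · have := congrFun (congrFun h 0) 0
        simp at this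
    · fin_cases k <;> simp [Matrix.det_fin_three]
    · have h00 := congrFun (congrFun h 0) 0
      have h11 := congrFun (congrFun h 1) 1
      have h22 := congrFun (congrFun h 2) 2
      fin_cases k <;> fin_cases l <;> simp_all
    · obtain ⟨h1, h2, h3, h4, h5, h6, h7⟩ := RE3_kernel hB ha hX
      rw [Matrix.det_fin_three, h1, h2, h3, h4, h5, h6, h7] at hdet
      have h02 : X 0 0 = 0 ∨ X 1 1 = 0 ∨ X 1 1 = - X 0 0 := by
        have : X 0 0 * (X 1 1 * (X 0 0 + X 1 1)) = 0 := by linear_combination -hdet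
        rcases mul_eq_zero.1 this with h | h
        · exact Or.inl h
        · rcases mul_eq_zero.1 h with h | h
          · exact Or.inr (Or.inl h)
          · exact Or.inr (Or.inr (by linear_combination h))
      rcases h02 with h02 | h02 | h02
      · rw [h02] at h1
        refine ⟨X 1 1, 0, ?_⟩
        ext i j
        fin_cases i <;> fin_cases j <;> simp [h1, h2, h3, h4, h5, h6, h7, h02]
      · rw [h02] at h1
        refine ⟨X 0 0, 1, ?_⟩
        ext i j
        fin_cases i <;> fin_cases j <;> simp [h1, h2, h3, h4, h5, h6, h7, h02]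
      · rw [h02] at h1
        refine ⟨X 0 0, 2, ?_⟩
        ext i j
        fin_cases i <;> fin_cases j <;> simp [h1, h2, h3, h4, h5, h6, h7, h02]
  exact RE_real ht_ind hs_ind hcount (RE_lt le_rfl)

end Pool.Agent.Helper74.CW
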