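import Pool.Agent.Helper74.CW.BIG
import Pool.Agent.Helper76.CW.SING

/-! Common lemmas for the realizations with a kernel of dimension two (modules RE0, RE123). -/

set_option autoImplicit false

namespace Pool.Agent.Helper74.CW

open Module Polynomial

variable {F K : Type*} [Field F] [Field K] [Algebra F K]

/-- a polynomial relation of degree at most `6` for `a` is trivial -/
theorem RE_seven (hB : Big F K) {a : K} (ha : a ∉ Set.range (algebraMap F K))
    (c : Fin 7 → F) (h : algebraMap F K (c 0) + algebraMap F K (c 1) * a +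
      algebraMap F K (c 2) * a ^ 2 + algebraMap F K (c 3) * a ^ 3 + algebraMap F K (c 4) * a ^ 4 +
      algebraMap F K (c 5) * a ^ 5 + algebraMap F K (c 6) * a ^ 6 = 0) : ∀ i, c i = 0 := by
  have h1 := Fintype.linearIndependent_iff.1 (hB.pow ha) c
  apply h1
  rw [Fin.sum_univ_seven]
  simp only [Algebra.smul_def]
  have e0 : ((0 : Fin 7) : ℕ) = 0 := rfl
  have e1 : ((1 : Fin 7) : ℕ) = 1 := rfl
  have e2 : ((2 : Fin 7) : ℕ) = 2 := rfl
  have e3 : ((3 : Fin 7) : ℕ) = 3 := rfl
  have e4 : ((4 : Fin 7) : ℕ) = 4 := rfl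
  have e5 : ((5 : Fin 7) : ℕ) = 5 := rfl
  have e6 : ((6 : Fin 7) : ℕ) = 6 := rfl
  rw [e0, e1, e2, e3, e4, e5, e6]
  linear_combination h

/-- linear independence from the kernel -/
theorem RE_indep_right {t s : Fin 3 → K} (i0 : Fin 3)
    (h : ∀ R ∈ NN F t s, (∀ i j, i ≠ i0 → R i j = 0) → R = 0) : LinearIndependent F s := by
  rw [Fintype.linearIndependent_iff]
  intro g hg
  set R : Matrix (Fin 3) (Fin 3) F := Matrix.of (fun i j => if i = i0 then g j else 0) with hR
  have h1 : R ∈ NN F t s := by
    show ∑ i, ∑ j, R i j • (t i * s j) = 0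
    rw [Finset.sum_eq_single i0]
    · have h2 : ∀ j, R i0 j • (t i0 * s j) = t i0 * (g j • s j) := by
        intro j
        rw [hR]
        simp
      rw [Finset.sum_congr rfl (fun j _ => h2 j), ← Finset.mul_sum, hg, mul_zero]
    · intro i _ hi
      apply Finset.sum_eq_zero
      intro j _
      rw [hR]
      simp [hi]
    · intro h
      exact absurd (Finset.mem_univ _) h
  have h2 := h R h1 (fun i j hi => by rw [hR]; simp [hi])
  intro j
  have h3 := congrFun (congrFun h2 i0) j
  rw [hR] at h3
  simpa using h3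

theorem RE_indep_left {t s : Fin 3 → K} (j0 : Fin 3)
    (h : ∀ R ∈ NN F t s, (∀ i j, j ≠ j0 → R i j = 0) → R = 0) : LinearIndependent F t := by
  rw [Fintype.linearIndependent_iff]
  intro g hg
  set R : Matrix (Fin 3) (Fin 3) F := Matrix.of (fun i j => if j = j0 then g i else 0) with hR
  have h1 : R ∈ NN F t s := by
    show ∑ i, ∑ j, R i j • (t i * s j) = 0
    rw [Finset.sum_comm, Finset.sum_eq_single j0]
    · have h2 : ∀ i, R i j0 • (t i * s j0) = s j0 * (g i • t i) := by
        intro i
        rw [hR]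
        simp [mul_comm]
      rw [Finset.sum_congr rfl (fun i _ => h2 i), ← Finset.mul_sum, hg, mul_zero]
    · intro j _ hj
      apply Finset.sum_eq_zero
      intro i _
      rw [hR]
      simp [hj]
    · intro h
      exact absurd (Finset.mem_univ _) h
  have h2 := h R h1 (fun i j hj => by rw [hR]; simp [hj])
  intro i
  have h3 := congrFun (congrFun h2 i) j0
  rw [hR] at h3
  simpa using h3

/-- a realization from a kernel with few singular elements -/
theorem RE_real [Finite F] [FiniteDimensional F K] {t s : Fin 3 → K}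
    (ht : LinearIndependent F t) (hs : LinearIndependent F s) {m : ℕ}
    (hm : sing (NN F t s) = m) (hlt : m < Nat.card F ^ 2 + Nat.card F + 1) : Real33 F K m := by
  have hc := card_sing ht hs
  rw [hm] at hc
  have h3 : inn (Submodule.span F (Set.range s)) (Submodule.span F (Set.range t)) 3 = 0 := by
    by_contra hne
    have h4 : 1 ≤ inn (Submodule.span F (Set.range s)) (Submodule.span F (Set.range t)) 3 :=
      Nat.one_le_iff_ne_zero.2 hne
    have h5 := Nat.mul_le_mul_left (Nat.card F ^ 2 + Nat.card F + 1) h4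
    omega
  rw [h3, mul_zero, add_zero] at hc
  have hfs : finrank F ↥(Submodule.span F (Set.range s)) = 3 := by
    rw [finrank_span_eq_card hs]
    simp
  have hft : finrank F ↥(Submodule.span F (Set.range t)) = 3 := by
    rw [finrank_span_eq_card ht]
    simp
  refine ⟨Submodule.span F (Set.range s), Submodule.span F (Set.range t), hfs, hft, ?_, hc.symm⟩
  rintro ⟨ξ, hξ, hsim⟩
  have hfin : Finite K := Module.finite_of_finite F
  have : Nonempty {ξ : K // ξ ≠ 0 ∧ finrank F ↥(Submodule.span F (Set.range s) ⊓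
      sc ξ (Submodule.span F (Set.range t))) = 3} := by
    refine ⟨⟨ξ, hξ, ?_⟩⟩
    rw [← hsim, inf_idem]
    exact hfs
  have h6 : 0 < inn (Submodule.span F (Set.range s)) (Submodule.span F (Set.range t)) 3 :=
    Nat.card_pos
  omega

/-- the defining equation of the kernel -/
theorem RE_mem {t s : Fin 3 → K} {R : Matrix (Fin 3) (Fin 3) F} (h : R ∈ NN F t s) :
    algebraMap F K (R 0 0) * (t 0 * s 0) + algebraMap F K (R 0 1) * (t 0 * s 1) +
      algebraMap F K (R 0 2) * (t 0 * s 2) + algebraMap F K (R 1 0) * (t 1 * s 0) +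
      algebraMap F K (R 1 1) * (t 1 * s 1) + algebraMap F K (R 1 2) * (t 1 * s 2) +
      algebraMap F K (R 2 0) * (t 2 * s 0) + algebraMap F K (R 2 1) * (t 2 * s 1) +
      algebraMap F K (R 2 2) * (t 2 * s 2) = 0 := by
  have h1 : ∑ i, ∑ j, R i j • (t i * s j) = 0 := h
  simp only [Fin.sum_univ_three, Algebra.smul_def] at h1
  linear_combination h1

theorem RE_mem_iff {t s : Fin 3 → K} {R : Matrix (Fin 3) (Fin 3) F} : R ∈ NN F t s ↔
    algebraMap F K (R 0 0) * (t 0 * s 0) + algebraMap F K (R 0 1) * (t 0 * s 1) +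
      algebraMap F K (R 0 2) * (t 0 * s 2) + algebraMap F K (R 1 0) * (t 1 * s 0) +
      algebraMap F K (R 1 1) * (t 1 * s 1) + algebraMap F K (R 1 2) * (t 1 * s 2) +
      algebraMap F K (R 2 0) * (t 2 * s 0) + algebraMap F K (R 2 1) * (t 2 * s 1) +
      algebraMap F K (R 2 2) * (t 2 * s 2) = 0 := by
  refine ⟨RE_mem, fun h => ?_⟩
  show ∑ i, ∑ j, R i j • (t i * s j) = 0
  simp only [Fin.sum_univ_three, Algebra.smul_def]
  linear_combination h

end Pool.Agent.Helper74.CW
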